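import Pool.Agent.H929Z.AMC.ZF

set_option autoImplicit false

namespace Pool.Agent.H929Z.AMC

open FirstOrder FirstOrder.Language FirstOrder.Language.Structure

/-- `x_p` is the Kuratowski pair of `x_x` and `x_y` -/
def kp (n : ℕ) (p x y : Fin n) : Fm n :=
  ((mem _ (Fin.last n) p.castSucc).iff
    (((mem _ (Fin.last (n + 1)) (Fin.last n).castSucc).iff
        (eqv _ (Fin.last (n + 1)) x.castSucc.castSucc)).all ⊔
      ((mem _ (Fin.last (n + 1)) (Fin.last n).castSucc).iff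
        (eqv _ (Fin.last (n + 1)) x.castSucc.castSucc ⊔
          eqv _ (Fin.last (n + 1)) y.castSucc.castSucc)).all)).all

lemma realize_kp {U : Set V} (hU : IsUniv U) {n : ℕ} (p x y : Fin n) (xs : Fin n → U) :
    (kp n p x y).Realize default xs ↔ (xs p : V) = ZFSet.pair (xs x) (xs y) := by
  simp only [kp, BoundedFormula.realize_all, BoundedFormula.realize_iff, BoundedFormula.realize_sup,
    realize_mem, realize_eqv, mm_iff, Fin.snoc_last, Fin.snoc_castSucc, Subtype.ext_iff]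
  have hxy : ({(xs x : V), (xs y : V)} : V) ∈ U := hU.pair _ (xs x).2 _ (xs y).2
  have hxx : ({(xs x : V)} : V) ∈ U := hU.sub _ hxy _ (by intro z hz; simp at hz; simp [hz])
  have e1 : ∀ z : U, (∀ a : U, (a : V) ∈ (z : V) ↔ (a : V) = xs x) ↔ (z : V) = {(xs x : V)} := by
    intro z
    constructor
    · intro h
      exact hU.ext' z.2 hxx fun a ha => by simpa using h ⟨a, ha⟩
    · intro h a; rw [h]; simp
  have e2 : ∀ z : U, (∀ a : U, (a : V) ∈ (z : V) ↔ (a : V) = xs x ∨ (a : V) = xs y) ↔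
      (z : V) = {(xs x : V), (xs y : V)} := by
    intro z
    constructor
    · intro h
      exact hU.ext' z.2 hxy fun a ha => by simpa using h ⟨a, ha⟩
    · intro h a; rw [h]; simp
  simp only [e1, e2]
  constructor
  · intro h
    refine hU.ext' (xs p).2 (hU.pair _ hxx _ hxy) fun a ha => ?_
    simpa [ZFSet.pair] using h ⟨a, ha⟩
  · intro h a
    rw [h]; simp [ZFSet.pair]

/-- the pair of `x_x` and `x_y` lies in `x_r` -/
def pin (n : ℕ) (x y r : Fin n) : Fm n :=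
  (mem _ (Fin.last n) r.castSucc ⊓ kp _ (Fin.last n) x.castSucc y.castSucc).ex

lemma realize_pin {U : Set V} (hU : IsUniv U) {n : ℕ} (x y r : Fin n) (xs : Fin n → U) :
    (pin n x y r).Realize default xs ↔ ZFSet.pair (xs x) (xs y) ∈ (xs r : V) := by
  simp only [pin, BoundedFormula.realize_ex, BoundedFormula.realize_inf, realize_mem, mm_iff,
    realize_kp hU, Fin.snoc_last, Fin.snoc_castSucc]
  constructor
  · rintro ⟨a, h1, h2⟩; rwa [← h2]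
  · intro h; exact ⟨⟨_, hU.trans _ (xs r).2 _ h⟩, h, rfl⟩

/-- `x_0` is a Grothendieck universe containing an inductive set -/
def chi : Fm 1 :=
  ((mem 3 1 0).imp ((mem 3 2 1).imp (mem 3 2 0))).all.all ⊓
  ((mem 2 1 0 ⊓ ((mem 3 2 1 ⊓ (mem 4 3 2).not.all).ex ⊓
    ((mem 3 2 1).imp (mem 4 3 1 ⊓
      ((mem 5 4 3).iff (mem 5 4 2 ⊔ eqv 5 4 2)).all).ex).all)).ex ⊓
  (((mem 3 1 0).imp ((mem 3 2 0).imp (mem 4 3 0 ⊓ (mem 4 1 3 ⊓ mem 4 2 3)).ex)).all.all ⊓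
  (((mem 2 1 0).imp
    (mem 3 2 0 ⊓ ((mem 5 3 1).imp ((mem 5 4 3).imp (mem 5 4 2))).all.all).ex).all ⊓
  (((mem 2 1 0).imp
    (mem 3 2 0 ⊓ (((mem 5 4 3).imp (mem 5 4 1)).all.imp (mem 4 3 2)).all).ex).all ⊓
  ((mem 3 1 0).imp (((mem 4 3 1).imp (mem 5 4 0 ⊓ pin 5 3 4 2).ex).all.imp
    (mem 4 3 0 ⊓ ((mem 5 4 1).imp (mem 6 5 3 ⊓ pin 6 4 5 2).ex).all).ex)).all.all))))

/-- the meaning of `chi` in `U` -/
def ChiP (U : Set V) (k : V) : Prop :=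
  (∀ x ∈ U, ∀ y ∈ U, x ∈ k → y ∈ x → y ∈ k) ∧
  ((∃ w ∈ U, w ∈ k ∧ ((∃ e ∈ U, e ∈ w ∧ ∀ z ∈ U, z ∉ e) ∧
    ∀ x ∈ U, x ∈ w → ∃ s ∈ U, s ∈ w ∧ ∀ z ∈ U, (z ∈ s ↔ z ∈ x ∨ z = x))) ∧
  ((∀ x ∈ U, ∀ y ∈ U, x ∈ k → y ∈ k → ∃ z ∈ U, z ∈ k ∧ (x ∈ z ∧ y ∈ z)) ∧
  ((∀ x ∈ U, x ∈ k → ∃ u ∈ U, u ∈ k ∧ ∀ y ∈ U, ∀ z ∈ U, y ∈ x → z ∈ y → z ∈ u) ∧
  ((∀ x ∈ U, x ∈ k → ∃ p ∈ U, p ∈ k ∧ ∀ c ∈ U, (∀ z ∈ U, z ∈ c → z ∈ x) → c ∈ p) ∧
  (∀ a ∈ U, ∀ r ∈ U, a ∈ k → (∀ x ∈ U, x ∈ a → ∃ y ∈ U, y ∈ k ∧ ZFSet.pair x y ∈ r) →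
    ∃ b ∈ U, b ∈ k ∧ ∀ x ∈ U, x ∈ a → ∃ y ∈ U, y ∈ b ∧ ZFSet.pair x y ∈ r)))))

lemma realize_chi {U : Set V} (hU : IsUniv U) (xs : Fin 1 → U) :
    chi.Realize default xs ↔ ChiP U (xs 0) := by
  simp only [chi, BoundedFormula.realize_all, BoundedFormula.realize_iff,
    BoundedFormula.realize_sup, BoundedFormula.realize_inf, BoundedFormula.realize_imp,
    BoundedFormula.realize_ex, BoundedFormula.realize_not,
    realize_mem, realize_eqv, mm_iff, realize_pin hU, Subtype.ext_iff, ChiP]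
  simp only [Fin.snoc]
  simp [Subtype.forall, Subtype.exists, -exists_and_left, -exists_and_right, -and_congr_right_iff]

lemma isUniv_of_chiP {k : V} (h : ChiP Set.univ k) : IsUniv {x | x ∈ k} := by
  simp only [ChiP, Set.mem_univ, true_and, forall_true_left] at h
  obtain ⟨ht, ⟨w, hw, ⟨e, he, he'⟩, hs⟩, hp, hu, hpw, hr⟩ := h
  have hsub : ∀ x ∈ k, ∀ c : V, c ⊆ x → c ∈ k := by
    intro x hx c hc
    obtain ⟨p, hp, hp'⟩ := hpw x hx
    exact ht p c hp (hp' c fun z hz => hc hz)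
  refine ⟨fun x hx y hy => ht x y hx hy, hsub, ?_, ?_, ?_, ⟨w, hw, ?_, ?_⟩, ?_⟩
  · intro x hx y hy
    obtain ⟨z, hz, h1, h2⟩ := hp x y hx hy
    refine hsub z hz _ fun a ha => ?_
    rcases ZFSet.mem_pair.1 ha with rfl | rfl <;> assumption
  · intro x hx
    obtain ⟨u, hu, hu'⟩ := hu x hx
    refine hsub u hu _ fun a ha => ?_
    obtain ⟨y, h1, h2⟩ := ZFSet.mem_sUnion.1 ha
    exact hu' y a h1 h2
  · intro x hx
    obtain ⟨p, hp, hp'⟩ := hpw x hx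
    exact hsub p hp _ fun c hc => hp' c fun z hz => ZFSet.mem_powerset.1 hc hz
  · rwa [← (ZFSet.eq_empty e).2 he']
  · intro x hx
    obtain ⟨s, hs1, hs2⟩ := hs x hx
    have : s = insert x x := by
      ext z; rw [hs2, ZFSet.mem_insert_iff, or_comm]
    rwa [← this]
  · intro a ha F hF
    let _ : ZFSet.Definable₁ fun x => ZFSet.pair x (F x) := Classical.allZFSetDefinable _
    obtain ⟨b, hb, hb'⟩ := hr a (ZFSet.image (fun x => ZFSet.pair x (F x)) a) ha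
      fun x hx => ⟨F x, hF x hx, ZFSet.mem_image.2 ⟨x, hx, rfl⟩⟩
    refine ⟨b, hb, fun x hx => ?_⟩
    obtain ⟨y, hy, hy'⟩ := hb' x hx
    obtain ⟨x', -, e⟩ := ZFSet.mem_image.1 hy'
    obtain ⟨rfl, rfl⟩ := ZFSet.pair_inj.1 e
    exact hy

lemma chiP_up {U : Set V} (hU : IsUniv U) {k : V} (hk : k ∈ U) (h : ChiP U k) :
    ChiP Set.univ k := by
  classical
  simp only [ChiP, Set.mem_univ, true_and, forall_true_left]
  obtain ⟨ht, ⟨w, hwU, hw, ⟨e, heU, he, he'⟩, hs⟩, hp, hu, hpw, hr⟩ := h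
  have t := hU.trans
  refine ⟨fun x y hx hy => ht x (t k hk x hx) y (t x (t k hk x hx) y hy) hx hy,
    ⟨w, hw, ⟨e, he, fun z hz => he' z (t e heU z hz) hz⟩, fun x hx => ?_⟩, ?_, ?_, ?_, ?_⟩
  · obtain ⟨s, hsU, hs1, hs2⟩ := hs x (t w hwU x hx) hx
    refine ⟨s, hs1, fun z => ⟨fun hz => (hs2 z (t s hsU z hz)).1 hz, fun hz => ?_⟩⟩
    refine (hs2 z ?_).2 hz
    rcases hz with hz | rfl
    · exact t x (t w hwU x hx) z hz
    · exact t w hwU _ hx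
  · intro x y hx hy
    obtain ⟨z, -, hz⟩ := hp x (t k hk x hx) y (t k hk y hy) hx hy
    exact ⟨z, hz⟩
  · intro x hx
    obtain ⟨u, -, hu1, hu2⟩ := hu x (t k hk x hx) hx
    refine ⟨u, hu1, fun y z hy hz => ?_⟩
    have hyU := t x (t k hk x hx) y hy
    exact hu2 y hyU z (t y hyU z hz) hy hz
  · intro x hx
    obtain ⟨p, -, hp1, hp2⟩ := hpw x (t k hk x hx) hx
    exact ⟨p, hp1, fun c hc => hp2 c (hU.sub x (t k hk x hx) c fun z hz => hc z hz)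
      fun z _ hz => hc z hz⟩
  · intro a r ha hr'
    have haU := t k hk a ha
    have h3 : ∀ x : V, ∃ y : V, x ∈ a → y ∈ k ∧ ZFSet.pair x y ∈ r := by
      intro x
      by_cases hx : x ∈ a
      · obtain ⟨y, hy⟩ := hr' x hx
        exact ⟨y, fun _ => hy⟩
      · exact ⟨∅, fun h => absurd h hx⟩
    choose F hF using h3
    have hpU : ∀ x ∈ a, ZFSet.pair x (F x) ∈ U := by
      intro x hx
      have h1 : ({x, F x} : V) ∈ U := hU.pair _ (t a haU x hx) _ (t k hk _ (hF x hx).1)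
      exact hU.pair _ (hU.sub _ h1 _ (by intro z hz; simp at hz; simp [hz])) _ h1
    obtain ⟨b', hb', hb''⟩ := hU.repl a haU _ hpU
    obtain ⟨b, -, hb1, hb2⟩ := hr a haU (ZFSet.sep (· ∈ r) b') (hU.sub _ hb' _ ZFSet.sep_subset) ha
      fun x _ hx => ⟨F x, t k hk _ (hF x hx).1, (hF x hx).1,
        ZFSet.mem_sep.2 ⟨hb'' x hx, (hF x hx).2⟩⟩
    refine ⟨b, hb1, fun x hx => ?_⟩
    obtain ⟨y, -, hy1, hy2⟩ := hb2 x (t a haU x hx) hx
    exact ⟨y, hy1, (ZFSet.mem_sep.1 hy2).2⟩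

open Cardinal Ordinal in
lemma exists_chiP : ∃ k : V, ChiP Set.univ k := by
  classical
  obtain ⟨κ, hκ⟩ : ∃ κ : Cardinal.{1}, κ.IsInaccessible := ⟨_, Cardinal.IsInaccessible.univ.{0, 1}⟩
  have hlim : Order.IsSuccLimit κ.ord := Cardinal.isSuccLimit_ord hκ.aleph0_lt.le
  have hsucc : ∀ {a : Ordinal.{1}}, a < κ.ord → Order.succ a < κ.ord := fun h => hlim.succ_lt h
  refine ⟨ZFSet.vonNeumann κ.ord, ?_⟩
  simp only [ChiP, Set.mem_univ, true_and, forall_true_left, ZFSet.mem_vonNeumann]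
  refine ⟨fun x y hx hy => (ZFSet.rank_lt_of_mem hy).trans hx,
    ⟨ZFSet.vonNeumann ω, ?_, ⟨∅, ?_, ZFSet.notMem_empty⟩, fun x hx => ⟨insert x x, ?_, ?_⟩⟩,
    ?_, ?_, ?_, ?_⟩
  · rw [ZFSet.rank_vonNeumann, ← Cardinal.ord_aleph0]
    exact Cardinal.ord_strictMono hκ.aleph0_lt
  · rw [ZFSet.mem_vonNeumann, ZFSet.rank_empty]; exact Ordinal.omega0_pos
  · rw [ZFSet.mem_vonNeumann] at hx ⊢
    rw [ZFSet.rank_insert]
    exact max_lt (Ordinal.isSuccLimit_omega0.succ_lt hx) hx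
  · intro z; rw [ZFSet.mem_insert_iff, or_comm]
  · intro x y hx hy
    refine ⟨{x, y}, ?_, by simp, by simp⟩
    rw [ZFSet.rank_pair]
    exact max_lt (hsucc hx) (hsucc hy)
  · intro x hx
    exact ⟨ZFSet.sUnion x, (ZFSet.rank_sUnion_le x).trans_lt hx,
      fun y z hy hz => ZFSet.mem_sUnion.2 ⟨y, hy, hz⟩⟩
  · intro x hx
    refine ⟨ZFSet.powerset x, ?_, fun c hc => ZFSet.mem_powerset.2 fun z hz => hc z hz⟩
    rw [ZFSet.rank_powerset]; exact hsucc hx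
  · intro a r ha hr
    have h3 : ∀ x : a, ∃ y : V, y.rank < κ.ord ∧ ZFSet.pair x y ∈ r := fun x => hr x x.2
    choose F hF using h3
    have hcard : ZFSet.card a < κ := by
      refine (ZFSet.card_mono (ZFSet.subset_vonNeumann_self a)).trans_lt ?_
      rw [ZFSet.card_vonNeumann]
      exact (Cardinal.preBeth_strictMono ha).trans_eq hκ.preBeth_ord
    have hsup : (⨆ i : Shrink.{1} a, Order.succ (F ((equivShrink a).symm i)).rank) < κ.ord :=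
      Cardinal.iSup_lt_ord_of_isRegular hκ.isRegular hcard fun i => hsucc (hF _).1
    refine ⟨ZFSet.vonNeumann _, by rw [ZFSet.rank_vonNeumann]; exact hsup, fun x hx => ?_⟩
    refine ⟨F ⟨x, hx⟩, ?_, (hF ⟨x, hx⟩).2⟩
    rw [ZFSet.mem_vonNeumann]
    have := Ordinal.le_iSup (fun i : Shrink.{1} a => Order.succ (F ((equivShrink a).symm i)).rank)
      (equivShrink a ⟨x, hx⟩)
    simp only [Equiv.symm_apply_apply] at this
    exact Order.succ_le_iff.1 this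

/-- a universe containing no universe -/
theorem exists_min : ∃ u : V, IsUniv {x | x ∈ u} ∧ ChiP Set.univ u ∧
    ∀ k ∈ u, ¬ ChiP Set.univ k := by
  obtain ⟨u, hu, hu'⟩ := ZFSet.mem_wf.has_min {k : V | ChiP Set.univ k} exists_chiP
  exact ⟨u, isUniv_of_chiP hu, hu, fun k hk h => hu' k h hk⟩

end Pool.Agent.H929Z.AMC
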