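import Mathlib

set_option autoImplicit false

/-! Model companions, absolute model companions, partial Morleyizations of set theory, ZFC. -/

namespace Pool.Agent.H929Z.AMC

open FirstOrder FirstOrder.Language

universe w

section General

variable {L : FirstOrder.Language.{0, 0}}

/-- Boolean combinations of universal sentences. -/
inductive BoolUniv : L.Sentence → Prop
  | univ {φ : L.Sentence} : BoundedFormula.IsUniversal φ → BoolUniv φ
  | imp {φ ψ : L.Sentence} : BoolUniv φ → BoolUniv ψ → BoolUniv (BoundedFormula.imp φ ψ)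

/-- `T_∀`: the universal consequences of `T`. -/
def univPart (T : L.Theory) : L.Theory := {φ | BoundedFormula.IsUniversal φ ∧ T ⊨ᵇ φ}

/-- `T_{∀∨∃}`: the consequences of `T` that are Boolean combinations of universal sentences. -/
def boolPart (T : L.Theory) : L.Theory := {φ | BoolUniv φ ∧ T ⊨ᵇ φ}

/-- Every embedding between models of `T` is elementary. -/
def ModelComplete (T : L.Theory) : Prop :=
  ∀ (M N : Theory.ModelType.{0, 0, w} T) (f : M ↪[L] N), ∃ g : M ↪ₑ[L] N, g.toEmbedding = f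

/-- `T` is the model companion of `S`. -/
def IsMC (T S : L.Theory) : Prop := univPart T = univPart S ∧ ModelComplete.{w} T

/-- `T` is the absolute model companion of `S`. -/
def IsAMC (T S : L.Theory) : Prop := boolPart T = boolPart S ∧ ModelComplete.{w} T

/-- The variable number `i`. -/
def vr {n : ℕ} (i : Fin n) : L.Term (Empty ⊕ Fin n) := Term.var (Sum.inr i)

/-- `x_i = x_j`. -/
def eqv (n : ℕ) (i j : Fin n) : L.BoundedFormula Empty n := Term.bdEqual (vr i) (vr j)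

/-- `∃! y φ(x, y)`, written `∃ z ∀ y (φ(x, y) ↔ y = z)`; `y` is the last variable of `φ`. -/
def exu {n : ℕ} (φ : L.BoundedFormula Empty (n + 1)) : L.BoundedFormula Empty n :=
  ((φ.liftAt 1 n).iff (eqv _ (Fin.last (n + 1)) (Fin.last n).castSucc)).all.ex

end General

/-- The single binary relation symbol. -/
inductive MemRel : ℕ → Type
  | mem : MemRel 2

/-- The signature of set theory. -/
def LMem : FirstOrder.Language.{0, 0} := ⟨fun _ => Empty, MemRel⟩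

/-- Formulas of set theory in the variables `x_0, …, x_{n-1}`. -/
abbrev Fm (n : ℕ) : Type := LMem.BoundedFormula Empty n

/-- Formulas `φ(x_0, …, x_n)` of set theory, with their `n`. -/
abbrev Form : Type := Σ n : ℕ, Fm (n + 1)

/-- `x_i ∈ x_j`. -/
def mem (n : ℕ) (i j : Fin n) : Fm n :=
  Relations.boundedFormula₂ (L := LMem) MemRel.mem (vr i) (vr j)

def axExt : LMem.Sentence :=
  (((mem 3 2 0).iff (mem 3 2 1)).all.imp (eqv 2 0 1)).alls

def axFound : LMem.Sentence :=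
  ((mem 2 1 0).ex.imp (mem 2 1 0 ⊓ ((mem 3 2 1).imp (mem 3 2 0).not).all).ex).alls

def axPair : LMem.Sentence :=
  ((mem 4 3 2).iff (eqv 4 3 0 ⊔ eqv 4 3 1)).all.ex.alls

def axUnion : LMem.Sentence :=
  ((mem 3 2 1).iff (mem 4 3 0 ⊓ mem 4 2 3).ex).all.ex.alls

def axPower : LMem.Sentence :=
  ((mem 3 2 1).iff ((mem 4 3 2).imp (mem 4 3 0)).all).all.ex.alls

def axInf : LMem.Sentence :=
  ((mem 2 1 0 ⊓ (mem 3 2 1).not.all).ex ⊓
    ((mem 2 1 0).imp
      (mem 3 2 0 ⊓ ((mem 4 3 2).iff (mem 4 3 1 ⊔ eqv 4 3 1)).all).ex).all).ex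

def axChoice : LMem.Sentence :=
  ((((mem 2 1 0).imp (mem 3 2 1).ex).all ⊓
      ((mem 3 1 0 ⊓ mem 3 2 0 ⊓ (mem 4 3 1 ⊓ mem 4 3 2).ex).imp (eqv 3 1 2)).all.all).imp
    ((mem 3 2 0).imp (exu (mem 4 3 2 ⊓ mem 4 3 1))).all.ex).alls

/-- Separation for `φ(p, a, z)`: `∀ p a ∃ b ∀ z (z ∈ b ↔ z ∈ a ∧ φ)`. -/
def axSep {n : ℕ} (φ : Fm (n + 2)) : LMem.Sentence :=
  (((mem _ (Fin.last (n + 2)) (Fin.last (n + 1)).castSucc).iff
    (mem _ (Fin.last (n + 2)) (Fin.last n).castSucc.castSucc ⊓ φ.liftAt 1 (n + 1))).all.ex).alls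

/-- Replacement for `φ(p, a, x, y)`:
`∀ p a ((∀ x ∈ a ∃! y φ) → ∃ b ∀ x ∈ a ∃ y ∈ b φ)`. -/
def axRepl {n : ℕ} (φ : Fm (n + 3)) : LMem.Sentence :=
  ((((mem _ (Fin.last (n + 1)) (Fin.last n).castSucc).imp (exu φ)).all).imp
    (((mem _ (Fin.last (n + 2)) (Fin.last n).castSucc.castSucc).imp
      (mem _ (Fin.last (n + 3)) (Fin.last (n + 1)).castSucc.castSucc ⊓
        φ.liftAt 1 (n + 1)).ex).all.ex)).alls

/-- The axioms of ZFC. -/
def ZFC : LMem.Theory :=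
  {axExt, axFound, axPair, axUnion, axPower, axInf, axChoice} ∪
    {σ | ∃ (n : ℕ) (φ : Fm (n + 2)), σ = axSep φ} ∪ {σ | ∃ (n : ℕ) (φ : Fm (n + 3)), σ = axRepl φ}

/-- `Δ₀`-formulas: generated from atomic formulas by `⊥`, `→` and bounded `∀`. -/
inductive Delta0 : ∀ {n : ℕ}, Fm n → Prop
  | qf {n : ℕ} {φ : Fm n} : BoundedFormula.IsQF φ → Delta0 φ
  | imp {n : ℕ} {φ ψ : Fm n} : Delta0 φ → Delta0 ψ → Delta0 (φ.imp ψ)
  | ball {n : ℕ} (i : Fin n) {φ : Fm (n + 1)} :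
      Delta0 φ → Delta0 ((mem _ (Fin.last n) i.castSucc).imp φ).all

/-- Pairs `(φ, 0)` with `φ` equivalent in ZFC to a `Δ₀`-formula, and pairs `(φ, 1)` with such a
`φ` for which moreover ZFC proves `∀ x ∃! y φ(x, y)` (`false` is `0`, `true` is `1`). -/
def Dmax : Set (Form × Bool) :=
  {p | (∃ ψ : Fm (p.1.1 + 1), Delta0 ψ ∧ ZFC ⊨ᵇ (p.1.2.iff ψ).alls) ∧
    (p.2 = true → ZFC ⊨ᵇ (exu p.1.2).alls)}

/-- Function symbols of `∈_A`. -/
inductive FunA (A : Set (Form × Bool)) : ℕ → Type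
  | f {n : ℕ} (φ : Fm (n + 1)) (h : (⟨n, φ⟩, true) ∈ A) : FunA A n
  | c (h : ∃ ψ : Form, (ψ, true) ∈ A) : FunA A 0

/-- Relation symbols of `∈_A`. -/
inductive RelA (A : Set (Form × Bool)) : ℕ → Type
  | mem : RelA A 2
  | r {n : ℕ} (φ : Fm (n + 1)) (h : (⟨n, φ⟩, false) ∈ A) : RelA A (n + 1)

/-- The signature `∈_A`. -/
def LA (A : Set (Form × Bool)) : FirstOrder.Language.{0, 0} := ⟨FunA A, RelA A⟩

/-- The inclusion of signatures. -/
def incl (A : Set (Form × Bool)) : LMem →ᴸ LA A where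
  onFunction := fun _ f => Empty.elim f
  onRelation := fun _ r => match r with
    | MemRel.mem => RelA.mem

/-- The constant `c` as a term. -/
def cTerm {A : Set (Form × Bool)} (h : ∃ ψ : Form, (ψ, true) ∈ A) {n : ℕ} :
    (LA A).Term (Empty ⊕ Fin n) := Term.func (L := LA A) (l := 0) (FunA.c h) Fin.elim0

/-- `Ax⁰_φ`. -/
def ax0 {A : Set (Form × Bool)} {n : ℕ} (φ : Fm (n + 1)) (h : (⟨n, φ⟩, false) ∈ A) :
    (LA A).Sentence :=
  (((incl A).onBoundedFormula φ).iff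
    (Relations.boundedFormula (L := LA A) (RelA.r φ h) fun i => vr i)).alls

/-- `Ax¹_φ`, with `φ(x, f(x))` written `∀ y (y = f(x) → φ(x, y))`. -/
def ax1 {A : Set (Form × Bool)} {n : ℕ} (φ : Fm (n + 1)) (h : (⟨n, φ⟩, true) ∈ A) :
    (LA A).Sentence :=
  ((exu ((incl A).onBoundedFormula φ)).imp
      ((Term.bdEqual (vr (Fin.last n)) (Term.func (L := LA A) (FunA.f φ h) fun i => vr i.castSucc)).imp
        ((incl A).onBoundedFormula φ)).all ⊓
    (exu ((incl A).onBoundedFormula φ)).not.imp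
      (Term.bdEqual (Term.func (L := LA A) (FunA.f φ h) fun i => vr i) (cTerm ⟨⟨n, φ⟩, h⟩))).alls

/-- `∀ x ((∀ y, y ∉ x) ↔ x = c)`. -/
def axC {A : Set (Form × Bool)} (h : ∃ ψ : Form, (ψ, true) ∈ A) : (LA A).Sentence :=
  (((incl A).onBoundedFormula (mem 2 1 0).not.all).iff
    (Term.bdEqual (vr (0 : Fin 1)) (cTerm h))).alls

/-- `T_{∈,A}`. -/
def TA (A : Set (Form × Bool)) : (LA A).Theory :=
  {σ | ∃ (n : ℕ) (φ : Fm (n + 1)) (h : (⟨n, φ⟩, false) ∈ A), σ = ax0 φ h} ∪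
    {σ | ∃ (n : ℕ) (φ : Fm (n + 1)) (h : (⟨n, φ⟩, true) ∈ A), σ = ax1 φ h} ∪
    {σ | ∃ h : ∃ ψ : Form, (ψ, true) ∈ A, σ = axC h}

/-- `S + T_{∈,A}`. -/
def expand (S : LMem.Theory) (A : Set (Form × Bool)) : (LA A).Theory :=
  (incl A).onTheory S ∪ TA A

end Pool.Agent.H929Z.AMC
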