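import Pool.Agent.H929Z.AMC.Defs

set_option autoImplicit false

namespace Pool.Agent.H929Z.AMC

open FirstOrder FirstOrder.Language

universe w

variable {L : FirstOrder.Language.{0, 0}}

lemma isUniversal_alls {α : Type*} {n : ℕ} {φ : L.BoundedFormula α n} (h : φ.IsUniversal) :
    BoundedFormula.IsUniversal φ.alls := by
  induction n with
  | zero => exact h
  | succ n ih => exact ih (BoundedFormula.IsUniversal.all h)

lemma isUniversal_iAlls {β : Type*} [Finite β] {φ : L.Formula (Empty ⊕ β)}
    (h : BoundedFormula.IsQF φ) : BoundedFormula.IsUniversal (φ.iAlls β) :=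
  isUniversal_alls (h.relabel _).isUniversal

lemma isQF_relabel {α β : Type*} {φ : L.Formula α} (h : BoundedFormula.IsQF φ) (g : α → β) :
    BoundedFormula.IsQF (φ.relabel g) := h.relabel _

/-- A structure satisfying the universal consequences of `T` embeds into a model of `T`. -/
theorem exists_embedding (T : L.Theory) (M : Type w) [L.Structure M] [Nonempty M]
    (h : ∀ φ : L.Sentence, BoundedFormula.IsUniversal φ → T ⊨ᵇ φ → M ⊨ φ) :
    ∃ N : Theory.ModelType.{0, 0, w} T, Nonempty (M ↪[L] N) := by
  classical
  let Dg : L[[M]].Theory := {δ | ∃ (s : Finset M) (φ : L.Formula s), BoundedFormula.IsQF φ ∧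
    φ.Realize Subtype.val ∧ δ = Formula.equivSentence (φ.relabel Subtype.val)}
  have hsat : ((L.lhomWithConstants M).onTheory T ∪ Dg).IsSatisfiable := by
    rw [Theory.isSatisfiable_iff_isFinitelySatisfiable]
    intro T0 hT0
    have key : ∃ (s : Finset M) (φ : L.Formula s), BoundedFormula.IsQF φ ∧
        φ.Realize Subtype.val ∧ ∀ (N : Theory.ModelType.{0, 0, 0} T) (v : M → N),
          φ.Realize (v ∘ Subtype.val) → ∀ δ ∈ T0, (Formula.equivSentence.symm δ).Realize v := by
      induction T0 using Finset.induction_on with
      | empty => exact ⟨∅, ⊤, BoundedFormula.IsQF.top, by simp, by simp⟩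
      | insert δ T0 _ ih =>
        rw [Finset.coe_insert, Set.insert_subset_iff] at hT0
        obtain ⟨s, φ, hφ, hφM, hs⟩ := ih hT0.2
        rcases hT0.1 with hδ | ⟨t, ψ, hψ, hψM, rfl⟩
        · refine ⟨s, φ, hφ, hφM, fun N v hv δ' hδ' => ?_⟩
          rcases Finset.mem_insert.1 hδ' with rfl | hδ'
          · rw [Formula.realize_equivSentence_symm]
            let _ : (constantsOn M).Structure N := constantsOn.structure v
            have hN : N ⊨ (L.lhomWithConstants M).onTheory T :=
              (LHom.onTheory_model _ _).2 N.is_model
            exact Theory.realize_sentence_of_mem _ hδ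
          · exact hs N v hv δ' hδ'
        · refine ⟨s ∪ t,
            φ.relabel (fun a => ⟨a.1, Finset.mem_union_left _ a.2⟩) ⊓
              ψ.relabel (fun a => ⟨a.1, Finset.mem_union_right _ a.2⟩),
            (isQF_relabel hφ _).inf (isQF_relabel hψ _), ?_, fun N v hv δ' hδ' => ?_⟩
          · rw [Formula.realize_inf, Formula.realize_relabel, Formula.realize_relabel]
            exact ⟨hφM, hψM⟩
          · rw [Formula.realize_inf, Formula.realize_relabel, Formula.realize_relabel] at hv
            rcases Finset.mem_insert.1 hδ' with rfl | hδ'
            · rw [Equiv.symm_apply_apply, Formula.realize_relabel]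
              exact hv.2
            · exact hs N v hv.1 δ' hδ'
    obtain ⟨s, φ, hφ, hφM, hs⟩ := key
    have hex : ∃ (N : Theory.ModelType.{0, 0, 0} T) (u : s → N), φ.Realize u := by
      by_contra hcon
      push Not at hcon
      have h1 := h ((φ.not.relabel Sum.inr).iAlls s) (isUniversal_iAlls (isQF_relabel hφ.not _))
        (Theory.models_sentence_iff.2 fun N => by
          rw [Sentence.Realize, Formula.realize_iAlls]
          intro u
          rw [Formula.realize_relabel, Formula.realize_not]
          exact hcon N u)
      rw [Sentence.Realize, Formula.realize_iAlls] at h1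
      have h2 := h1 Subtype.val
      rw [Formula.realize_relabel, Formula.realize_not] at h2
      exact h2 hφM
    obtain ⟨N, u, hu⟩ := hex
    let v : M → N := fun m => if hm : m ∈ s then u ⟨m, hm⟩ else Classical.arbitrary N
    have hv : v ∘ Subtype.val = u := by
      funext a
      simp [v, a.2]
    let _ : (constantsOn M).Structure N := constantsOn.structure v
    have : N ⊨ (T0 : L[[M]].Theory) := by
      rw [Theory.model_iff]
      intro δ hδ
      exact (Formula.realize_equivSentence_symm N δ v).1 (hs N v (by rw [hv]; exact hu) δ hδ)
    exact Theory.Model.isSatisfiable N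
  obtain ⟨N⟩ := hsat
  let _ : L.Structure N := (L.lhomWithConstants M).reduct N
  have hN : N ⊨ (L.lhomWithConstants M).onTheory T :=
    Theory.Model.mono N.is_model Set.subset_union_left
  have hNT : N ⊨ T := (LHom.onTheory_model _ _).1 hN
  have hq : ∀ (ι : Type) [Finite ι] (φ : L.Formula ι) (xs : ι → M), BoundedFormula.IsQF φ →
      φ.Realize xs → φ.Realize fun i => (L.con (xs i) : N) := by
    intro ι _ φ xs hφ hx
    have := Fintype.ofFinite ι
    let s : Finset M := Finset.univ.image xs
    let g : ι → s := fun i => ⟨xs i, Finset.mem_image_of_mem _ (Finset.mem_univ i)⟩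
    have h1 : Formula.equivSentence ((φ.relabel g).relabel Subtype.val) ∈ Dg :=
      ⟨s, φ.relabel g, isQF_relabel hφ _, by rw [Formula.realize_relabel]; exact hx, rfl⟩
    have h2 : N ⊨ Formula.equivSentence ((φ.relabel g).relabel Subtype.val) :=
      Theory.realize_sentence_of_mem ((L.lhomWithConstants M).onTheory T ∪ Dg)
        (Set.mem_union_right _ h1)
    rw [Formula.realize_equivSentence, Formula.realize_relabel, Formula.realize_relabel] at h2
    exact h2
  refine ⟨Theory.ModelType.of T N, ⟨⟨⟨fun m => (L.con m : N), ?_⟩, ?_, ?_⟩⟩⟩
  · intro a b hab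
    by_contra hne
    have := hq Bool (Term.equal (Term.var true) (Term.var false)).not (fun i => cond i a b)
      (BoundedFormula.IsAtomic.equal _ _).isQF.not (by simpa using hne)
    simp only [Formula.realize_not, Formula.realize_equal, Term.realize_var] at this
    exact this hab
  · intro n f x
    have := hq (Option (Fin n))
      (Term.equal (Term.var none) (Term.func f fun i => Term.var (some i)))
      (fun i => i.elim (Structure.funMap f x) x)
      (BoundedFormula.IsAtomic.equal _ _).isQF (by simp)
    simp only [Formula.realize_equal, Term.realize_var, Term.realize_func] at this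
    exact this
  · intro n r x
    constructor
    · intro hr
      by_contra hne
      have := hq (Fin n) (r.formula fun i => Term.var i).not x
        (BoundedFormula.IsAtomic.rel _ _).isQF.not (by simpa using hne)
      simp only [Formula.realize_not, Formula.realize_rel, Term.realize_var] at this
      exact this hr
    · intro hr
      have := hq (Fin n) (r.formula fun i => Term.var i) x
        (BoundedFormula.IsAtomic.rel _ _).isQF (by simpa using hr)
      simp only [Formula.realize_rel, Term.realize_var] at this
      exact this

end Pool.Agent.H929Z.AMC
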