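import Pool.Agent.H929Z.AMC.Chi

set_option autoImplicit false

namespace Pool.Agent.H929Z.AMC

open FirstOrder FirstOrder.Language FirstOrder.Language.Structure

universe w

/-- renaming of variables -/
def sub {m n : ℕ} (φ : Fm m) (g : Fin m → Fin n) : Fm n :=
  BoundedFormula.relabel Sum.inr (Formula.relabel (Sum.elim Empty.elim g) φ.toFormula)

lemma realize_sub {M : Type*} [LMem.Structure M] {m n : ℕ} (φ : Fm m) (g : Fin m → Fin n)
    (xs : Fin n → M) : (sub φ g).Realize default xs ↔ φ.Realize default (xs ∘ g) := by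
  rw [sub, Formula.realize_relabel_sumInr, Formula.realize_relabel,
    BoundedFormula.realize_toFormula]
  exact iff_of_eq (congrArg₂ _ (Subsingleton.elim _ _) rfl)

instance factUniv : Fact (IsUniv Set.univ) := ⟨isUniv_univ⟩

instance neU (U : Set V) [h : Fact (IsUniv U)] : Nonempty U := h.out.nonempty

instance zfcU (U : Set V) [h : Fact (IsUniv U)] : U ⊨ ZFC := h.out.models_ZFC

/-- the empty set -/
def emp (U : Set V) [h : Fact (IsUniv U)] : U :=
  ⟨∅, by
    obtain ⟨w, hw, h0, -⟩ := h.out.inf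
    exact h.out.trans w hw _ h0⟩

open Classical in
noncomputable instance expStr (A : Set (Form × Bool)) (U : Set V) [Fact (IsUniv U)] :
    (LA A).Structure U where
  funMap := fun {n} f xs => match n, f, xs with
    | _, FunA.f φ _, xs =>
      if h : ∃! y : U, φ.Realize default (Fin.snoc xs y) then h.choose else emp U
    | _, FunA.c _, _ => emp U
  RelMap := fun {n} r xs => match n, r, xs with
    | _, RelA.mem, xs => (xs 0 : V) ∈ (xs 1 : V)
    | _, RelA.r φ _, xs => φ.Realize default xs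

instance expOn (A : Set (Form × Bool)) (U : Set V) [Fact (IsUniv U)] :
    (incl A).IsExpansionOn U where
  map_onFunction := fun f _ => Empty.elim f
  map_onRelation := fun r _ => by cases r; rfl

section
variable {A : Set (Form × Bool)} {U : Set V} [hU : Fact (IsUniv U)]

open Classical in
lemma funMap_f {n : ℕ} (φ : Fm (n + 1)) (h : (⟨n, φ⟩, true) ∈ A) (xs : Fin n → U) :
    funMap (L := LA A) (FunA.f φ h) xs =
      if h : ∃! y : U, φ.Realize default (Fin.snoc xs y) then h.choose else emp U := rfl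

lemma relMap_r {n : ℕ} (φ : Fm (n + 1)) (h : (⟨n, φ⟩, false) ∈ A) (xs : Fin (n + 1) → U) :
    RelMap (L := LA A) (RelA.r φ h) xs ↔ φ.Realize default xs := Iff.rfl

instance modelsTA (A : Set (Form × Bool)) (U : Set V) [hU : Fact (IsUniv U)] : U ⊨ TA A := by
  refine models_TA_iff.2 ⟨fun n φ h => (realize_ax0 φ h).2 fun xs => Iff.rfl,
    fun n φ h => (realize_ax1 φ h).2 fun xs => ⟨fun hu => ?_, fun hu => ?_⟩,
    fun h => (realize_axC h).2 fun x => ?_⟩
  · rw [funMap_f, dif_pos hu]; exact hu.choose_spec.1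
  · rw [funMap_f, dif_neg hu]; rfl
  · change _ ↔ x = emp U
    constructor
    · intro hx
      refine Subtype.ext ((ZFSet.eq_empty _).2 fun y hy => hx ⟨y, hU.out.trans _ x.2 y hy⟩ hy)
    · rintro rfl y
      exact ZFSet.notMem_empty _

/-- the inclusion into the whole universe -/
def iota (U : Set V) : U ↪[LMem] (Set.univ : Set V) where
  toFun := fun x => ⟨x, trivial⟩
  inj' := fun _ _ h => Subtype.ext (congrArg (fun z : (Set.univ : Set V) => z.1) h)
  map_fun' := fun f _ => Empty.elim f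
  map_rel' := fun r _ => by cases r; rfl

lemma delta0_abs {n : ℕ} {φ : Fm n} (h : Delta0 φ) (xs : Fin n → U) :
    φ.Realize default (iota U ∘ xs) ↔ φ.Realize default xs := by
  induction h with
  | qf h =>
    rw [← h.realize_embedding (iota U) (v := default) (xs := xs)]
    exact iff_of_eq (congrArg₂ _ (Subsingleton.elim _ _) rfl)
  | imp _ _ ih1 ih2 => rw [BoundedFormula.realize_imp, BoundedFormula.realize_imp, ih1, ih2]
  | ball i _ ih =>
    simp only [BoundedFormula.realize_all, BoundedFormula.realize_imp, realize_mem, mm_iff,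
      Fin.snoc_last, Fin.snoc_castSucc]
    constructor
    · intro H a ha
      rw [← ih, Fin.comp_snoc]
      exact H (iota U a) ha
    · intro H a ha
      have := (ih _).2 (H ⟨a, hU.out.trans _ (xs i).2 _ ha⟩ ha)
      rwa [Fin.comp_snoc] at this

lemma dmax_abs {n : ℕ} {φ : Fm (n + 1)} {b : Bool} (h : (⟨n, φ⟩, b) ∈ Dmax)
    (xs : Fin (n + 1) → U) : φ.Realize default (iota U ∘ xs) ↔ φ.Realize default xs := by
  obtain ⟨⟨ψ, hψ, he⟩, -⟩ := h
  have h1 := he.realize_sentence U
  have h2 := he.realize_sentence (Set.univ : Set V)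
  simp only [Sentence.Realize, BoundedFormula.realize_alls, BoundedFormula.realize_iff] at h1 h2
  rw [h1, h2, delta0_abs hψ]

lemma dmax_exu {n : ℕ} {φ : Fm (n + 1)} (h : (⟨n, φ⟩, true) ∈ Dmax) (xs : Fin n → U) :
    ∃! y : U, φ.Realize default (Fin.snoc xs y) := by
  have h1 := (h.2 rfl).realize_sentence U
  simp only [Sentence.Realize, BoundedFormula.realize_alls, realize_exu] at h1
  exact h1 xs

end

/-- the set of defined symbols -/
def AA : Set (Form × Bool) :=
  Dmax ∪ {p | p.2 = false ∧ ∀ U : Set V, IsUniv U → ∀ xs : Fin (p.1.1 + 1) → U,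
    p.1.2.Realize default xs → ChiP U (xs (Fin.last _))}

lemma chi_mem : ((⟨0, chi⟩, false) : Form × Bool) ∈ AA :=
  Or.inr ⟨rfl, fun _ hU xs h => (realize_chi hU xs).1 h⟩

/-- `φ(x) ∧ χ(k)` -/
def guard {n : ℕ} (φ : Fm n) : Fm (n + 1) := sub φ Fin.castSucc ⊓ sub chi fun _ => Fin.last n

lemma realize_guard {U : Set V} (hU : IsUniv U) {n : ℕ} (φ : Fm n) (xs : Fin (n + 1) → U) :
    (guard φ).Realize default xs ↔
      φ.Realize default (xs ∘ Fin.castSucc) ∧ ChiP U (xs (Fin.last n)) := by
  rw [guard, BoundedFormula.realize_inf, realize_sub, realize_sub, realize_chi hU]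
  rfl

lemma guard_mem {n : ℕ} (φ : Fm n) : ((⟨n, guard φ⟩, false) : Form × Bool) ∈ AA :=
  Or.inr ⟨rfl, fun _ hU xs h => ((realize_guard hU φ xs).1 h).2⟩

/-- the inclusion is an embedding for the expanded signature -/
def iotaA (U : Set V) [hU : Fact (IsUniv U)] (hmin : ∀ k ∈ U, ¬ ChiP Set.univ k) :
    U ↪[LA AA] (Set.univ : Set V) where
  toFun := iota U
  inj' := (iota U).injective
  map_fun' := fun {n} f xs => by
    cases f with
    | c h => rfl
    | f φ h =>
      have hD : ((⟨n, φ⟩, true) : Form × Bool) ∈ Dmax := h.elim id fun h => absurd h.1 (by simp)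
      have h1 := dmax_exu (U := U) hD xs
      have h2 := dmax_exu (U := Set.univ) hD (iota U ∘ xs)
      change iota U (funMap (L := LA AA) (FunA.f φ h) xs) =
        funMap (L := LA AA) (FunA.f φ h) (iota U ∘ xs)
      rw [funMap_f, funMap_f, dif_pos h1, dif_pos h2]
      refine h2.choose_spec.2 _ ?_
      have := (dmax_abs hD _).2 h1.choose_spec.1
      rwa [Fin.comp_snoc] at this
  map_rel' := fun {n} r xs => by
    cases r with
    | mem => rfl
    | r φ h =>
      change φ.Realize default (iota U ∘ xs) ↔ φ.Realize default xs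
      rcases h with h | h
      · exact dmax_abs h xs
      · exact iff_of_false (fun H => hmin _ (xs (Fin.last _)).2 (h.2 _ isUniv_univ _ H))
          (fun H => hmin _ (xs (Fin.last _)).2 (chiP_up hU.out (xs (Fin.last _)).2
            (h.2 _ hU.out _ H)))

/-- the common theory of `U` and the whole universe -/
def SS (U : Set V) : LMem.Theory := {σ | U ⊨ σ ∧ (Set.univ : Set V) ⊨ σ}

section
variable (U : Set V) [hU : Fact (IsUniv U)]

lemma zfc_sub : ZFC ⊆ SS U := fun _ h =>
  ⟨Theory.realize_sentence_of_mem ZFC h, Theory.realize_sentence_of_mem ZFC h⟩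

lemma models1 : U ⊨ expand (SS U) AA :=
  Theory.model_union_iff.2 ⟨(LHom.onTheory_model _ _).2 ⟨fun _ h => h.1⟩, inferInstance⟩

omit hU in
lemma models2 : (Set.univ : Set V) ⊨ expand (SS U) AA :=
  Theory.model_union_iff.2 ⟨(LHom.onTheory_model _ _).2 ⟨fun _ h => h.2⟩, inferInstance⟩

lemma key (φ : (LA AA).Sentence) (h1 : U ⊨ φ) (h2 : (Set.univ : Set V) ⊨ φ) :
    expand (SS U) AA ⊨ᵇ φ := by
  obtain ⟨ψ, hψ⟩ := exists_trans φ
  have e1 := (trans_realize hψ U default).1 h1
  have e2 := (trans_realize hψ (Set.univ : Set V) default).1 h2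
  refine Theory.models_sentence_iff.2 fun N => ?_
  let _ : LMem.Structure N := (incl AA).reduct N
  have _ : (incl AA).IsExpansionOn N := LHom.isExpansionOn_reduct _ _
  have hN := Theory.model_union_iff.1 N.is_model
  have _ : N ⊨ TA AA := hN.2
  have h3 : N ⊨ SS U := (LHom.onTheory_model _ _).1 hN.1
  exact (trans_realize hψ N default).2 (Theory.realize_sentence_of_mem (SS U) (φ := ψ) ⟨e1, e2⟩)

variable {U}

lemma univ_down (hmin : ∀ k ∈ U, ¬ ChiP Set.univ k) {φ : (LA AA).Sentence}
    (hφ : BoundedFormula.IsUniversal φ) (h : (Set.univ : Set V) ⊨ φ) : U ⊨ φ := by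
  refine hφ.realize_embedding (iotaA U hmin) (v := default) (xs := default) ?_
  exact (iff_of_eq (congrArg₂ _ (Subsingleton.elim _ _) (Subsingleton.elim _ _))).1 h

lemma univPart_eq (hmin : ∀ k ∈ U, ¬ ChiP Set.univ k) :
    univPart ((LA AA).completeTheory (Set.univ : Set V)) = univPart (expand (SS U) AA) := by
  ext φ
  refine and_congr_right fun hφ => ⟨fun h => ?_, fun h => ?_⟩
  · have h2 := h.realize_sentence (Set.univ : Set V)
    exact key U φ (univ_down hmin hφ h2) h2
  · have _ := models2 U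
    exact Theory.models_sentence_of_mem (h.realize_sentence (Set.univ : Set V))

end

/-- `R_χ(x_i)` -/
def rchi (n : ℕ) (i : Fin n) : (LA AA).BoundedFormula Empty n :=
  Relations.boundedFormula (L := LA AA) (RelA.r chi chi_mem) fun _ => vr i

lemma realize_rchi {M : Type*} [(LA AA).Structure M] {n : ℕ} (i : Fin n) (v : Empty → M)
    (xs : Fin n → M) :
    (rchi n i).Realize v xs ↔ RelMap (L := LA AA) (RelA.r chi chi_mem) fun _ => xs i :=
  Iff.rfl

/-- `∃ k R_χ(k)` -/
def eps : (LA AA).Sentence := (rchi 1 0).ex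

lemma realize_eps {M : Type*} [(LA AA).Structure M] :
    M ⊨ eps ↔ ∃ k : M, RelMap (L := LA AA) (RelA.r chi chi_mem) fun _ => k := by
  simp [eps, Sentence.Realize, Formula.Realize, realize_rchi, Fin.snoc]

lemma eps_bool : BoolUniv eps :=
  BoolUniv.imp (BoolUniv.univ (BoundedFormula.IsUniversal.all
    (BoundedFormula.IsAtomic.rel _ _).isQF.not.isUniversal))
    (BoolUniv.univ BoundedFormula.isQF_bot.isUniversal)

lemma eps_univ : (Set.univ : Set V) ⊨ eps := by
  obtain ⟨k, hk⟩ := exists_chiP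
  exact realize_eps.2 ⟨⟨k, trivial⟩, (realize_chi isUniv_univ _).2 hk⟩

lemma not_eps {U : Set V} [hU : Fact (IsUniv U)] (hmin : ∀ k ∈ U, ¬ ChiP Set.univ k) :
    ¬ U ⊨ eps := by
  intro h
  obtain ⟨k, hk⟩ := realize_eps.1 h
  exact hmin k k.2 (chiP_up hU.out k.2 ((realize_chi hU.out _).1 hk))

lemma guard_elim {n : ℕ} (θ : (LA AA).BoundedFormula Empty n) :
    ∃ r : (LA AA).Relations (n + 1),
      ∀ (M : Type w) [(LA AA).Structure M] [M ⊨ (LA AA).completeTheory (Set.univ : Set V)]
        (xs : Fin n → M) (k : M), RelMap (L := LA AA) (RelA.r chi chi_mem) (fun _ => k) →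
        (θ.Realize default xs ↔ RelMap r (Fin.snoc xs k : Fin (n + 1) → M)) := by
  obtain ⟨ψ, hψ⟩ := exists_trans θ
  refine ⟨RelA.r (guard ψ) (guard_mem ψ), fun M _ _ xs k hk => ?_⟩
  let σ : (LA AA).Sentence := ((rchi _ (Fin.last n)).imp ((θ.liftAt 1 n).iff
    (Relations.boundedFormula (L := LA AA) (RelA.r (guard ψ) (guard_mem ψ)) fun i => vr i))).alls
  have h2 : (Set.univ : Set V) ⊨ σ := by
    simp only [σ, Sentence.Realize, BoundedFormula.realize_alls, BoundedFormula.realize_imp,
      BoundedFormula.realize_iff, realize_rchi, BoundedFormula.realize_liftAt_one_self]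
    intro ys hy
    rw [relMap_r, realize_chi isUniv_univ] at hy
    change _ ↔ (guard ψ).Realize default ys
    rw [realize_guard isUniv_univ, trans_realize hψ]
    exact (and_iff_left hy).symm
  have h3 : M ⊨ σ := Theory.realize_sentence_of_mem _ (mem_completeTheory.2 h2)
  simp only [σ, Sentence.Realize, BoundedFormula.realize_alls, BoundedFormula.realize_imp,
      BoundedFormula.realize_iff, realize_rchi, BoundedFormula.realize_liftAt_one_self] at h3
  have := h3 (Fin.snoc xs k) (by simpa using hk)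
  rw [Fin.snoc_comp_castSucc] at this
  exact this

lemma modelComplete : ModelComplete.{w} ((LA AA).completeTheory (Set.univ : Set V)) := by
  intro M N f
  refine ⟨⟨f, fun n φ x => ?_⟩, rfl⟩
  obtain ⟨r, hr⟩ := guard_elim.{w} (BoundedFormula.relabel Sum.inr φ)
  obtain ⟨k, hk⟩ := realize_eps.1
    (Theory.realize_sentence_of_mem (M := M) _ (mem_completeTheory.2 eps_univ))
  have hk' : RelMap (L := LA AA) (RelA.r chi chi_mem) (fun _ => f k) :=
    (f.map_rel (RelA.r chi chi_mem) (fun _ => k)).2 hk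
  have h1 := hr M x k hk
  have h2 := hr N (f ∘ x) (f k) hk'
  rw [Formula.realize_relabel_sumInr] at h1 h2
  rw [h1, h2, ← Fin.comp_snoc]
  exact f.map_rel r _

lemma no_amc {U : Set V} [hU : Fact (IsUniv U)] (hmin : ∀ k ∈ U, ¬ ChiP Set.univ k)
    (T : (LA AA).Theory) : ¬ IsAMC.{w} T (expand (SS U) AA) := by
  rintro ⟨hb, hmc⟩
  have _ := models1 U
  have _ := models2 U
  have hb' : ∀ φ, BoolUniv φ → (T ⊨ᵇ φ ↔ expand (SS U) AA ⊨ᵇ φ) := fun φ hφ =>
    (and_congr_right_iff.1 (Set.ext_iff.1 hb φ)) hφ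
  have h1 : ¬ T ⊨ᵇ eps := fun h => not_eps hmin (((hb' _ eps_bool).1 h).realize_sentence U)
  rw [Theory.models_iff_not_satisfiable, not_not] at h1
  obtain ⟨N0⟩ := h1
  let N : Theory.ModelType.{0, 0, w} (T ∪ {eps.not}) := N0.ulift.{0, 0, 0, w}
  have hN := Theory.model_union_iff.1 N.is_model
  have _ : N ⊨ T := hN.1
  have hne : ¬ N ⊨ eps := (Sentence.realize_not _).1 (Theory.model_singleton_iff.1 hN.2)
  obtain ⟨N', ⟨f⟩⟩ := exists_embedding (T ∪ {eps}) N fun θ hθ h => by
    have h2 : T ⊨ᵇ eps.imp θ := by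
      refine Theory.models_sentence_iff.2 fun P => (Sentence.realize_imp _).2 fun hP => ?_
      have _ : P ⊨ T ∪ {eps} :=
        Theory.model_union_iff.2 ⟨P.is_model, Theory.model_singleton_iff.2 hP⟩
      exact h.realize_sentence P
    have h3 : (Set.univ : Set V) ⊨ θ := (Sentence.realize_imp _).1
      (((hb' _ (eps_bool.imp (BoolUniv.univ hθ))).1 h2).realize_sentence (Set.univ : Set V))
      eps_univ
    exact ((hb' _ (BoolUniv.univ hθ)).2 (key U θ (univ_down hmin hθ h3) h3)).realize_sentence N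
  have hN' := Theory.model_union_iff.1 N'.is_model
  obtain ⟨g, -⟩ := hmc (N.subtheoryModel Set.subset_union_left)
    (N'.subtheoryModel Set.subset_union_left) f
  exact hne ((g.map_sentence eps).2 (Theory.model_singleton_iff.1 hN'.2))

theorem main : ∃ S : LMem.Theory, ZFC ⊆ S ∧ ∃ A : Set (Form × Bool), Dmax ⊆ A ∧
    (∃ T : (LA A).Theory, IsMC.{w} T (expand S A)) ∧
      ¬ ∃ T : (LA A).Theory, IsAMC.{w} T (expand S A) := by
  obtain ⟨U, hU, hmin⟩ : ∃ U : Set V, IsUniv U ∧ ∀ k ∈ U, ¬ ChiP Set.univ k := by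
    obtain ⟨u, hu, -, hmin⟩ := exists_min
    exact ⟨_, hu, hmin⟩
  have _ : Fact (IsUniv U) := ⟨hU⟩
  exact ⟨SS U, zfc_sub _, AA, Set.subset_union_left,
    ⟨_, univPart_eq hmin, modelComplete⟩, fun ⟨T, hT⟩ => no_amc hmin T hT⟩

end Pool.Agent.H929Z.AMC
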