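import Pool.Agent.H929Z.AMC.Embed

set_option autoImplicit false

namespace Pool.Agent.H929Z.AMC

open FirstOrder FirstOrder.Language FirstOrder.Language.Structure

section
variable {L : FirstOrder.Language.{0, 0}} {M : Type*} [L.Structure M]

@[simp] lemma realize_vr {n : ℕ} (i : Fin n) (v : Empty → M) (xs : Fin n → M) :
    (vr (L := L) i).realize (Sum.elim v xs) = xs i := rfl

@[simp] lemma realize_eqv {n : ℕ} (i j : Fin n) (v : Empty → M) (xs : Fin n → M) :
    (eqv (L := L) n i j).Realize v xs ↔ xs i = xs j := by simp [eqv]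

lemma snoc_lift {n : ℕ} (xs : Fin n → M) (z y : M) :
    ((Fin.snoc (Fin.snoc xs z : Fin (n + 1) → M) y : Fin (n + 2) → M) ∘
      fun i : Fin (n + 1) => if (i : ℕ) < n then i.castSucc else i.succ) = Fin.snoc xs y := by
  funext i
  refine Fin.lastCases ?_ (fun j => ?_) i
  · simp [Fin.succ_last]
  · simp

lemma realize_exu {n : ℕ} (φ : L.BoundedFormula Empty (n + 1)) (v : Empty → M) (xs : Fin n → M) :
    (exu φ).Realize v xs ↔ ∃! y, φ.Realize v (Fin.snoc xs y) := by
  simp only [exu, BoundedFormula.realize_ex, BoundedFormula.realize_all, BoundedFormula.realize_iff,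
    BoundedFormula.realize_liftAt_one (Nat.le_succ n), snoc_lift, realize_eqv, Fin.snoc_last,
    Fin.snoc_castSucc]
  constructor
  · rintro ⟨z, hz⟩
    exact ⟨z, (hz z).2 rfl, fun y hy => (hz y).1 hy⟩
  · rintro ⟨z, hz, hz'⟩
    exact ⟨z, fun y => ⟨hz' y, fun h => h ▸ hz⟩⟩

end

/-- membership in a structure -/
def mm {M : Type*} [LMem.Structure M] (a b : M) : Prop := RelMap (L := LMem) MemRel.mem ![a, b]

@[simp] lemma realize_mem {M : Type*} [LMem.Structure M] {n : ℕ} (i j : Fin n) (v : Empty → M)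
    (xs : Fin n → M) : (mem n i j).Realize v xs ↔ mm (xs i) (xs j) := by
  simp [mem, mm]

section
variable {A : Set (Form × Bool)} {M : Type*} [LMem.Structure M] [(LA A).Structure M]
  [(incl A).IsExpansionOn M]

lemma realize_ax0 {n : ℕ} (φ : Fm (n + 1)) (h : (⟨n, φ⟩, false) ∈ A) :
    M ⊨ ax0 φ h ↔ ∀ xs : Fin (n + 1) → M,
      φ.Realize default xs ↔ RelMap (L := LA A) (RelA.r φ h) xs := by
  simp [ax0, Sentence.Realize, LHom.realize_onBoundedFormula]

/-- the interpretation of `c` -/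
def cV (M : Type*) [(LA A).Structure M] (h : ∃ ψ : Form, (ψ, true) ∈ A) : M :=
  funMap (L := LA A) (FunA.c h) Fin.elim0

omit [LMem.Structure M] [(incl A).IsExpansionOn M] in
lemma realize_cTerm (h : ∃ ψ : Form, (ψ, true) ∈ A) {n : ℕ} (v : Empty ⊕ Fin n → M) :
    (cTerm h).realize v = cV M h := by
  simp only [cTerm, cV, Term.realize_func]
  congr 1
  funext i; exact i.elim0

lemma realize_ax1 {n : ℕ} (φ : Fm (n + 1)) (h : (⟨n, φ⟩, true) ∈ A) :
    M ⊨ ax1 φ h ↔ ∀ xs : Fin n → M,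
      ((∃! y, φ.Realize default (Fin.snoc xs y : Fin (n + 1) → M)) →
        φ.Realize default (Fin.snoc xs (funMap (L := LA A) (FunA.f φ h) xs) : Fin (n + 1) → M)) ∧
      ((¬ ∃! y, φ.Realize default (Fin.snoc xs y : Fin (n + 1) → M)) →
        funMap (L := LA A) (FunA.f φ h) xs = cV M ⟨⟨n, φ⟩, h⟩) := by
  simp only [ax1, Sentence.Realize, BoundedFormula.realize_alls, BoundedFormula.realize_inf,
    BoundedFormula.realize_imp, BoundedFormula.realize_not, realize_exu,
    LHom.realize_onBoundedFormula, BoundedFormula.realize_all, BoundedFormula.realize_bdEqual,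
    Term.realize_func, realize_vr, realize_cTerm, Fin.snoc_last, Fin.snoc_castSucc, forall_eq]

lemma realize_axC (h : ∃ ψ : Form, (ψ, true) ∈ A) :
    M ⊨ axC h ↔ ∀ x : M, (∀ y, ¬ mm y x) ↔ x = cV M h := by
  simp only [axC, Sentence.Realize, BoundedFormula.realize_alls, BoundedFormula.realize_iff,
    LHom.realize_onBoundedFormula, BoundedFormula.realize_all, BoundedFormula.realize_not,
    realize_mem, BoundedFormula.realize_bdEqual, realize_vr, realize_cTerm]
  constructor
  · intro H x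
    simpa [Fin.snoc] using H (fun _ => x)
  · intro H xs
    simpa [Fin.snoc] using H (xs 0)

omit [LMem.Structure M] [(incl A).IsExpansionOn M] in
lemma models_TA_iff : M ⊨ TA A ↔
    (∀ (n : ℕ) (φ : Fm (n + 1)) (h : (⟨n, φ⟩, false) ∈ A), M ⊨ ax0 φ h) ∧
    (∀ (n : ℕ) (φ : Fm (n + 1)) (h : (⟨n, φ⟩, true) ∈ A), M ⊨ ax1 φ h) ∧
    ∀ h : ∃ ψ : Form, (ψ, true) ∈ A, M ⊨ axC h := by
  rw [Theory.model_iff]
  constructor
  · intro H
    exact ⟨fun n φ h => H _ (Or.inl (Or.inl ⟨n, φ, h, rfl⟩)),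
      fun n φ h => H _ (Or.inl (Or.inr ⟨n, φ, h, rfl⟩)), fun h => H _ (Or.inr ⟨h, rfl⟩)⟩
  · rintro ⟨h0, h1, h2⟩ σ ((⟨n, φ, h, rfl⟩ | ⟨n, φ, h, rfl⟩) | ⟨h, rfl⟩)
    · exact h0 n φ h
    · exact h1 n φ h
    · exact h2 h

end

section
variable {A : Set (Form × Bool)}

abbrev Md (A : Set (Form × Bool)) := Theory.ModelType.{0, 0, 0} (TA A)

noncomputable instance redMd (M : Md A) : LMem.Structure M := (incl A).reduct M

instance redMdExp (M : Md A) : (incl A).IsExpansionOn M := LHom.isExpansionOn_reduct _ _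

/-- uniformly definable in the signature of set theory -/
def Df (A : Set (Form × Bool)) (β : Type) (P : ∀ M : Md A, (β → M) → Prop) : Prop :=
  ∃ φ : LMem.Formula β, ∀ (M : Md A) (v : β → M), φ.Realize v ↔ P M v

variable {β γ : Type}

lemma Df.congr {P Q : ∀ M : Md A, (β → M) → Prop} (h : Df A β P) (e : ∀ M v, P M v ↔ Q M v) :
    Df A β Q := by
  obtain ⟨φ, hφ⟩ := h
  exact ⟨φ, fun M v => (hφ M v).trans (e M v)⟩

lemma Df.bot : Df A β fun _ _ => False := ⟨⊥, fun _ _ => Iff.rfl⟩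

lemma Df.imp {P Q : ∀ M : Md A, (β → M) → Prop} (h : Df A β P) (h' : Df A β Q) :
    Df A β fun M v => P M v → Q M v := by
  obtain ⟨φ, hφ⟩ := h
  obtain ⟨ψ, hψ⟩ := h'
  exact ⟨φ.imp ψ, fun M v => by rw [Formula.realize_imp, hφ, hψ]⟩

lemma Df.not {P : ∀ M : Md A, (β → M) → Prop} (h : Df A β P) : Df A β fun M v => ¬ P M v :=
  h.imp Df.bot

lemma Df.and {P Q : ∀ M : Md A, (β → M) → Prop} (h : Df A β P) (h' : Df A β Q) :
    Df A β fun M v => P M v ∧ Q M v := (h.imp h'.not).not.congr fun _ _ => by tauto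

lemma Df.or {P Q : ∀ M : Md A, (β → M) → Prop} (h : Df A β P) (h' : Df A β Q) :
    Df A β fun M v => P M v ∨ Q M v := (h.not.imp h').congr fun _ _ => by tauto

lemma Df.relabel {P : ∀ M : Md A, (β → M) → Prop} (h : Df A β P) (g : β → γ) :
    Df A γ fun M v => P M (v ∘ g) := by
  obtain ⟨φ, hφ⟩ := h
  exact ⟨φ.relabel g, fun M v => by rw [Formula.realize_relabel, hφ]⟩

lemma Df.exs [Finite γ] {P : ∀ M : Md A, (β ⊕ γ → M) → Prop} (h : Df A (β ⊕ γ) P) :
    Df A β fun M v => ∃ u : γ → M, P M (Sum.elim v u) := by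
  obtain ⟨φ, hφ⟩ := h
  exact ⟨φ.iExs γ, fun M v => by simp only [Formula.realize_iExs, hφ]⟩

lemma Df.iInf [Finite γ] {P : γ → ∀ M : Md A, (β → M) → Prop} (h : ∀ i, Df A β (P i)) :
    Df A β fun M v => ∀ i, P i M v := by
  choose φ hφ using h
  exact ⟨Formula.iInf φ, fun M v => by simp only [Formula.realize_iInf, hφ]⟩

lemma Df.fm {n : ℕ} (φ : Fm n) (g : Fin n → β) :
    Df A β fun _ v => φ.Realize default (v ∘ g) := by
  refine ⟨φ.toFormula.relabel (Sum.elim Empty.elim g), fun M v => ?_⟩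
  rw [Formula.realize_relabel, BoundedFormula.realize_toFormula]
  exact iff_of_eq (congrArg₂ _ (Subsingleton.elim _ _) rfl)

lemma Df.eq (a b : β) : Df A β fun _ v => v a = v b :=
  (Df.fm (eqv 2 0 1) ![a, b]).congr fun _ _ => by simp

lemma Df.isEmpty (a : β) : Df A β fun _ v => ∀ y, ¬ mm y (v a) :=
  (Df.fm (mem 2 1 0).not.all ![a]).congr fun _ _ => by simp [Fin.snoc]

lemma Df.graph {n : ℕ} (f : (LA A).Functions n) (g : Fin n → β) (b : β) :
    Df A β fun _ v => funMap f (v ∘ g) = v b := by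
  cases f with
  | c h =>
    refine (Df.isEmpty b).congr fun M v => ?_
    rw [(realize_axC h).1 ((models_TA_iff.1 M.is_model).2.2 h) (v b), eq_comm]
    rw [cV, Subsingleton.elim (Fin.elim0 : Fin 0 → M) (v ∘ g)]
  | f φ h =>
    refine (((Df.fm (exu φ) g).and (Df.fm φ (Fin.snoc g b))).or
      ((Df.fm (exu φ) g).not.and (Df.isEmpty b))).congr fun M v => ?_
    have h1 := (realize_ax1 φ h).1 ((models_TA_iff.1 M.is_model).2.1 n φ h) (v ∘ g)
    have h2 := (realize_axC ⟨⟨n, φ⟩, h⟩).1 ((models_TA_iff.1 M.is_model).2.2 _) (v b)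
    rw [realize_exu, Fin.comp_snoc, h2]
    constructor
    · rintro (⟨hu, hb⟩ | ⟨hu, hb⟩)
      · exact hu.unique (h1.1 hu) hb
      · rw [hb]; exact h1.2 hu
    · intro hb
      by_cases hu : ∃! y, φ.Realize default (Fin.snoc (v ∘ g) y : Fin (n + 1) → M)
      · exact Or.inl ⟨hu, hb ▸ h1.1 hu⟩
      · exact Or.inr ⟨hu, hb.symm.trans (h1.2 hu)⟩

lemma Df.relsym {n : ℕ} (r : (LA A).Relations n) (g : Fin n → β) :
    Df A β fun _ v => RelMap r (v ∘ g) := by
  cases r with
  | mem =>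
    refine (Df.fm (mem 2 0 1) g).congr fun M v => ?_
    rw [realize_mem, mm]
    have e : ![(v ∘ g) 0, (v ∘ g) 1] = v ∘ g := by
      funext i; fin_cases i <;> rfl
    rw [e]; rfl
  | r φ h =>
    exact (Df.fm φ g).congr fun M v =>
      (realize_ax0 φ h).1 ((models_TA_iff.1 M.is_model).1 _ φ h) (v ∘ g)

lemma Df.term {α : Type} (t : (LA A).Term α) :
    ∀ {β : Type} (g : α → β) (b : β), Df A β fun _ v => t.realize (v ∘ g) = v b := by
  induction t with
  | var a => intro β g b; exact Df.eq (g a) b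
  | @func n f ts ih =>
    intro β g b
    refine (Df.exs (γ := Fin n) ((Df.iInf fun i => ih i (Sum.inl ∘ g) (Sum.inr i)).and
      (Df.graph f Sum.inr (Sum.inl b)))).congr fun M v => ?_
    rw [Term.realize_func]
    constructor
    · rintro ⟨u, hu, hb⟩
      have : (fun i => (ts i).realize (v ∘ g)) = u := funext hu
      rw [this]; exact hb
    · intro hb
      exact ⟨fun i => (ts i).realize (v ∘ g), fun _ => rfl, hb⟩

lemma Df.bounded {n : ℕ} (φ : (LA A).BoundedFormula Empty n) :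
    Df A (Fin n) fun _ v => φ.Realize default v := by
  have e : ∀ (n : ℕ) (M : Md A) (γ : Type) (v : Fin n → M) (u : γ → M),
      Sum.elim v u ∘ (Sum.inl ∘ Sum.elim Empty.elim id) = Sum.elim (default : Empty → M) v := by
    intro n M γ v u
    funext i
    rcases i with i | i
    · exact i.elim
    · rfl
  induction φ with
  | falsum => exact Df.bot
  | @equal n t₁ t₂ =>
    refine (Df.exs (γ := Unit) ((Df.term t₁ (Sum.inl ∘ Sum.elim Empty.elim id) (Sum.inr ())).and
      (Df.term t₂ (Sum.inl ∘ Sum.elim Empty.elim id) (Sum.inr ())))).congr fun M v => ?_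
    simp only [e, BoundedFormula.Realize]
    constructor
    · rintro ⟨u, h1, h2⟩; exact h1.trans h2.symm
    · intro h; exact ⟨fun _ => _, h, rfl⟩
  | @rel n l R ts =>
    refine (Df.exs (γ := Fin l) ((Df.iInf fun i =>
      Df.term (ts i) (Sum.inl ∘ Sum.elim Empty.elim id) (Sum.inr i)).and
      (Df.relsym R Sum.inr))).congr fun M v => ?_
    simp only [e, BoundedFormula.Realize]
    constructor
    · rintro ⟨u, hu, hb⟩
      have : (fun i => (ts i).realize (Sum.elim default v)) = u := funext hu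
      rw [this]; exact hb
    · intro hb
      exact ⟨fun i => (ts i).realize (Sum.elim default v), fun _ => rfl, hb⟩
  | imp _ _ ih1 ih2 => exact ih1.imp ih2
  | @all n φ ih =>
    refine (Df.exs (γ := Unit)
      (ih.not.relabel (Fin.snoc (α := fun _ => Fin n ⊕ Unit) Sum.inl (Sum.inr ())))).not.congr
      fun M v => ?_
    simp only [Fin.comp_snoc, BoundedFormula.realize_all, not_exists, not_not]
    exact ⟨fun h a => h fun _ => a, fun h u => h (u ())⟩

/-- elimination of defined symbols -/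
theorem exists_trans {n : ℕ} (φ : (LA A).BoundedFormula Empty n) :
    ∃ ψ : Fm n, TA A ⊨ᵇ φ.iff ((incl A).onBoundedFormula ψ) := by
  obtain ⟨ψ, hψ⟩ := Df.bounded φ
  refine ⟨BoundedFormula.relabel Sum.inr ψ, fun M v xs => ?_⟩
  rw [BoundedFormula.realize_iff, LHom.realize_onBoundedFormula, Formula.realize_relabel_sumInr,
    hψ, Subsingleton.elim v default]

theorem trans_realize {n : ℕ} {φ : (LA A).BoundedFormula Empty n} {ψ : Fm n}
    (h : TA A ⊨ᵇ φ.iff ((incl A).onBoundedFormula ψ)) (M : Type*) [LMem.Structure M]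
    [(LA A).Structure M] [(incl A).IsExpansionOn M] [Nonempty M] [M ⊨ TA A] (xs : Fin n → M) :
    φ.Realize default xs ↔ ψ.Realize default xs := by
  have := h.realize_boundedFormula M (v := default) (xs := xs)
  rwa [BoundedFormula.realize_iff, LHom.realize_onBoundedFormula] at this

end

end Pool.Agent.H929Z.AMC
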