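import Pool.Agent.H929Z.AMC.Trans

set_option autoImplicit false

namespace Pool.Agent.H929Z.AMC

open FirstOrder FirstOrder.Language FirstOrder.Language.Structure

abbrev V := ZFSet.{1}

instance memStr (U : Set V) : LMem.Structure U where
  funMap := fun f _ => Empty.elim f
  RelMap := fun r x => match r with
    | MemRel.mem => (x 0 : V) ∈ (x 1 : V)

@[simp] lemma mm_iff {U : Set V} (a b : U) : mm a b ↔ (a : V) ∈ (b : V) := Iff.rfl

/-- classes closed under the set-theoretic operations -/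
structure IsUniv (U : Set V) : Prop where
  trans : ∀ x ∈ U, ∀ y ∈ x, y ∈ U
  sub : ∀ x ∈ U, ∀ c : V, c ⊆ x → c ∈ U
  pair : ∀ x ∈ U, ∀ y ∈ U, ({x, y} : V) ∈ U
  sUnion : ∀ x ∈ U, ZFSet.sUnion x ∈ U
  pow : ∀ x ∈ U, ZFSet.powerset x ∈ U
  inf : ∃ w ∈ U, (∅ : V) ∈ w ∧ ∀ x ∈ w, insert x x ∈ w
  repl : ∀ a ∈ U, ∀ F : V → V, (∀ x ∈ a, F x ∈ U) → ∃ b ∈ U, ∀ x ∈ a, F x ∈ b

lemma isUniv_univ : IsUniv Set.univ where
  trans := by simp
  sub := by simp
  pair := by simp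
  sUnion := by simp
  pow := by simp
  inf := ⟨ZFSet.omega, trivial, ZFSet.omega_zero, fun _ h => ZFSet.omega_succ h⟩
  repl := fun a _ F _ => by
    let _ : ZFSet.Definable₁ F := Classical.allZFSetDefinable _
    exact ⟨ZFSet.image F a, trivial, fun x hx => ZFSet.mem_image.2 ⟨x, hx, rfl⟩⟩

lemma snoc_lift' {M : Type*} {n : ℕ} (xs : Fin n → M) (b x y : M) :
    ((Fin.snoc (Fin.snoc (Fin.snoc xs b : Fin (n + 1) → M) x : Fin (n + 2) → M) y :
        Fin (n + 3) → M) ∘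
      fun i : Fin (n + 2) => if (i : ℕ) < n then i.castSucc else i.succ)
      = Fin.snoc (Fin.snoc xs x : Fin (n + 1) → M) y := by
  funext i
  refine Fin.lastCases ?_ (fun j => ?_) i
  · simp [Fin.succ_last]
  · refine Fin.lastCases ?_ (fun j => ?_) j
    · have : (Fin.last n).castSucc.succ = (Fin.last (n + 1)).castSucc := rfl
      simp [this]
    · simp

namespace IsUniv

variable {U : Set V} (hU : IsUniv U)
include hU

lemma nonempty : Nonempty U := by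
  obtain ⟨w, hw, -⟩ := hU.inf
  exact ⟨⟨w, hw⟩⟩

lemma ext' {a b : V} (ha : a ∈ U) (hb : b ∈ U) (h : ∀ z ∈ U, z ∈ a ↔ z ∈ b) : a = b := by
  ext z
  exact ⟨fun hz => (h z (hU.trans a ha z hz)).1 hz, fun hz => (h z (hU.trans b hb z hz)).2 hz⟩

lemma ax_ext : U ⊨ axExt := by
  simp only [axExt, Sentence.Realize, BoundedFormula.realize_alls]
  intro xs
  simp only [BoundedFormula.realize_imp, BoundedFormula.realize_all, BoundedFormula.realize_iff,
    realize_mem, realize_eqv, mm_iff]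
  intro h
  refine Subtype.ext (hU.ext' (xs 0).2 (xs 1).2 fun z hz => ?_)
  simpa [Fin.snoc] using h ⟨z, hz⟩

lemma ax_found : U ⊨ axFound := by
  simp only [axFound, Sentence.Realize, BoundedFormula.realize_alls]
  intro xs
  simp [Fin.snoc]
  intro y _ hy
  obtain ⟨z, hz, hz'⟩ := ZFSet.mem_wf.has_min {y : V | y ∈ (xs 0 : V)} ⟨y, hy⟩
  exact ⟨z, hz, hU.trans _ (xs 0).2 z hz, fun a _ ha ha' => hz' a ha' ha⟩

lemma ax_pair : U ⊨ axPair := by
  simp only [axPair, Sentence.Realize, BoundedFormula.realize_alls]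
  intro xs
  simp [Fin.snoc]
  exact ⟨{(xs 0 : V), (xs 1 : V)}, hU.pair _ (xs 0).2 _ (xs 1).2, fun a _ => by
    simp [Subtype.ext_iff]⟩

lemma ax_union : U ⊨ axUnion := by
  simp only [axUnion, Sentence.Realize, BoundedFormula.realize_alls]
  intro xs
  simp [Fin.snoc]
  refine ⟨ZFSet.sUnion (xs 0 : V), hU.sUnion _ (xs 0).2, fun a _ => ?_⟩
  rw [ZFSet.mem_sUnion]
  exact ⟨fun ⟨z, h1, h2⟩ => ⟨z, h1, hU.trans _ (xs 0).2 z h1, h2⟩,
    fun ⟨z, h1, _, h2⟩ => ⟨z, h1, h2⟩⟩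

lemma ax_power : U ⊨ axPower := by
  simp only [axPower, Sentence.Realize, BoundedFormula.realize_alls]
  intro xs
  simp [Fin.snoc]
  refine ⟨ZFSet.powerset (xs 0 : V), hU.pow _ (xs 0).2, fun a ha => ?_⟩
  rw [ZFSet.mem_powerset]
  exact ⟨fun h z _ hz => h hz, fun h z hz => h z (hU.trans a ha z hz) hz⟩

lemma ax_inf : U ⊨ axInf := by
  obtain ⟨w, hw, h0, hs⟩ := hU.inf
  simp only [axInf, Sentence.Realize, Formula.Realize]
  simp [Fin.snoc]
  refine ⟨w, ⟨∅, h0, hU.trans w hw _ h0, fun a _ => ZFSet.notMem_empty a⟩, hw, fun a ha haw => ?_⟩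
  refine ⟨insert a a, hs a haw, hU.trans w hw _ (hs a haw), fun z _ => ?_⟩
  simp [or_comm]

lemma ax_choice : U ⊨ axChoice := by
  simp only [axChoice, Sentence.Realize, BoundedFormula.realize_alls]
  intro xs
  simp only [BoundedFormula.realize_imp, BoundedFormula.realize_inf, BoundedFormula.realize_all,
    BoundedFormula.realize_ex, realize_exu, realize_mem, realize_eqv, mm_iff]
  simp only [Fin.snoc]
  simp
  intro h1 h2
  have h3 : ∀ y : V, ∃ z : V, y ∈ (xs 0 : V) → z ∈ y := by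
    intro y
    by_cases hy : y ∈ (xs 0 : V)
    · obtain ⟨z, _, hz⟩ := h1 y (hU.trans _ (xs 0).2 y hy) hy
      exact ⟨z, fun _ => hz⟩
    · exact ⟨∅, fun h => absurd h hy⟩
  choose F hF using h3
  refine ⟨ZFSet.sep (fun z => ∃ y ∈ (xs 0 : V), z = F y) (ZFSet.sUnion (xs 0 : V)),
    hU.sub _ (hU.sUnion _ (xs 0).2) _ ZFSet.sep_subset, fun y hyU hy => ?_⟩
  refine ⟨⟨F y, hU.trans y hyU _ (hF y hy)⟩, ⟨hF y hy, ?_⟩, ?_⟩
  · exact ZFSet.mem_sep.2 ⟨ZFSet.mem_sUnion.2 ⟨y, hy, hF y hy⟩, y, hy, rfl⟩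
  · rintro ⟨z, hzU⟩ ⟨hz1, hz2⟩
    obtain ⟨-, y', hy', e⟩ := ZFSet.mem_sep.1 hz2
    have e' : z = F y' := e
    have := h2 y hyU y' (hU.trans _ (xs 0).2 y' hy') hy hy' z hz1 hzU (e' ▸ hF y' hy')
    exact Subtype.ext (e'.trans (congrArg F this.symm))

lemma ax_sep {n : ℕ} (φ : Fm (n + 2)) : U ⊨ axSep φ := by
  simp only [axSep, Sentence.Realize, BoundedFormula.realize_alls]
  intro xs
  simp only [BoundedFormula.realize_inf, BoundedFormula.realize_all, BoundedFormula.realize_iff,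
    BoundedFormula.realize_ex, realize_mem, mm_iff,
    BoundedFormula.realize_liftAt_one (Nat.le_succ (n + 1)), snoc_lift, Fin.snoc_last,
    Fin.snoc_castSucc]
  refine ⟨⟨ZFSet.sep (fun z => ∃ hz : z ∈ U,
      φ.Realize default (Fin.snoc xs ⟨z, hz⟩ : Fin (n + 2) → U)) (xs (Fin.last n)),
    hU.sub _ (xs (Fin.last n)).2 _ ZFSet.sep_subset⟩, fun z => ?_⟩
  rw [ZFSet.mem_sep]
  exact and_congr_right fun _ => ⟨fun ⟨_, h⟩ => h, fun h => ⟨z.2, h⟩⟩

lemma ax_repl {n : ℕ} (φ : Fm (n + 3)) : U ⊨ axRepl φ := by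
  classical
  simp only [axRepl, Sentence.Realize, BoundedFormula.realize_alls]
  intro xs
  simp only [BoundedFormula.realize_inf, BoundedFormula.realize_all, BoundedFormula.realize_imp,
    BoundedFormula.realize_ex, realize_mem, mm_iff, realize_exu,
    BoundedFormula.realize_liftAt_one (show n + 1 ≤ n + 3 by omega), snoc_lift', Fin.snoc_last,
    Fin.snoc_castSucc]
  intro h
  have h3 : ∀ x : V, ∃ y : V, ∀ hx : x ∈ (xs (Fin.last n) : V), ∃ hy : y ∈ U,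
      φ.Realize default (Fin.snoc (Fin.snoc xs ⟨x, hU.trans _ (xs (Fin.last n)).2 x hx⟩ :
        Fin (n + 2) → U) ⟨y, hy⟩ : Fin (n + 3) → U) := by
    intro x
    by_cases hx : x ∈ (xs (Fin.last n) : V)
    · obtain ⟨y, hy, -⟩ := h ⟨x, hU.trans _ (xs (Fin.last n)).2 x hx⟩ hx
      exact ⟨y, fun _ => ⟨y.2, hy⟩⟩
    · exact ⟨∅, fun h => absurd h hx⟩
  choose F hF using h3
  obtain ⟨b, hb, hb'⟩ := hU.repl _ (xs (Fin.last n)).2 F fun x hx => (hF x hx).1
  exact ⟨⟨b, hb⟩, fun x hx => ⟨⟨F x, (hF x hx).1⟩, hb' x hx, (hF x hx).2⟩⟩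

theorem models_ZFC : U ⊨ ZFC := by
  rw [Theory.model_iff]
  rintro σ ((h | ⟨n, φ, rfl⟩) | ⟨n, φ, rfl⟩)
  · simp only [Set.mem_insert_iff, Set.mem_singleton_iff] at h
    rcases h with rfl | rfl | rfl | rfl | rfl | rfl | rfl
    exacts [hU.ax_ext, hU.ax_found, hU.ax_pair, hU.ax_union, hU.ax_power, hU.ax_inf, hU.ax_choice]
  · exact hU.ax_sep φ
  · exact hU.ax_repl φ

end IsUniv

end Pool.Agent.H929Z.AMC
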